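import Mathlib

set_option autoImplicit false

namespace H749Z.TF
open MeasureTheory
open scoped ContDiff

/-- Physical space `ℝ³`. -/
abbrev E3 := EuclideanSpace ℝ (Fin 3)

/-- The nuclear potential `V(x) = ∑ z_j / |x - R_j|`. -/
noncomputable def pot {k : ℕ} (z : Fin k → ℝ) (R : Fin k → E3) (x : E3) : ℝ :=
  ∑ j, z j / ‖x - R j‖

/-- The nuclear repulsion `U = ∑_{i<j} z_i z_j / |R_i - R_j|`. -/
noncomputable def nuc {k : ℕ} (z : Fin k → ℝ) (R : Fin k → E3) : ℝ :=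
  ∑ i, ∑ j, if i < j then z i * z j / ‖R i - R j‖ else 0

/-- Wave functions of `N` electrons: positions and spins. -/
abbrev Wave (N : ℕ) := (Fin N → E3) → (Fin N → Fin 2) → ℂ

/-- Normalised antisymmetric wave functions that are smooth with compact support
(the unit vectors of a core of `H_N`). -/
structure IsTrial {N : ℕ} (ψ : Wave N) : Prop where
  smooth : ∀ s, ContDiff ℝ ∞ fun x => ψ x s
  compact : ∀ s, HasCompactSupport fun x => ψ x s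
  anti : ∀ (π : Equiv.Perm (Fin N)) x s,
    ψ (x ∘ π) (s ∘ π) = ((Equiv.Perm.sign π : ℤ) : ℂ) * ψ x s
  norm_one : ∑ s, ∫ x, ‖ψ x s‖ ^ 2 = 1

/-- The expectation `⟨ψ, H_N ψ⟩`. -/
noncomputable def qEnergy {N k : ℕ} (z : Fin k → ℝ) (R : Fin k → E3) (ψ : Wave N) : ℝ :=
  ∑ s, ((∫ x, ∑ i, ∑ a : Fin 3,
      ‖fderiv ℝ (fun y => ψ y s) x (Pi.single i (EuclideanSpace.single a 1))‖ ^ 2) -
    (∫ x, (∑ i, pot z R (x i)) * ‖ψ x s‖ ^ 2) +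
    ∫ x, (∑ i, ∑ j, if i < j then 1 / ‖x i - x j‖ else 0) * ‖ψ x s‖ ^ 2) + nuc z R

/-- The quantum ground-state energy `inf spec H_N`, as the infimum of `⟨ψ, H_N ψ⟩` on the core. -/
noncomputable def EQ (N : ℕ) {k : ℕ} (z : Fin k → ℝ) (R : Fin k → E3) : EReal :=
  ⨅ (ψ : Wave N) (_ : IsTrial ψ), (qEnergy z R ψ : EReal)

/-- The Thomas-Fermi constant `(3/5) (3π²)^(2/3)`. -/
noncomputable def gam : ℝ := 3 / 5 * (3 * Real.pi ^ 2) ^ (2 / 3 : ℝ)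

/-- `D(ρ,ρ) = (1/2) ∬ ρ(x) ρ(y) / |x - y|`. -/
noncomputable def coul (ρ : E3 → ℝ) : ENNReal :=
  (∫⁻ x, ∫⁻ y, ENNReal.ofReal (ρ x * ρ y / ‖x - y‖)) / 2

/-- The Thomas-Fermi functional. -/
noncomputable def tfEnergy {k : ℕ} (z : Fin k → ℝ) (R : Fin k → E3) (ρ : E3 → ℝ) : EReal :=
  ((gam * (∫ x, ρ x ^ (5 / 3 : ℝ)) - (∫ x, pot z R x * ρ x) + nuc z R : ℝ) : EReal) +
    (coul ρ : EReal)

/-- The Thomas-Fermi energy. -/
noncomputable def ETF (N : ℕ) {k : ℕ} (z : Fin k → ℝ) (R : Fin k → E3) : EReal :=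
  ⨅ (ρ : E3 → ℝ) (_ : (∀ x, 0 ≤ ρ x) ∧ MemLp ρ (5 / 3) ∧ Integrable ρ ∧ ∫ x, ρ x ≤ N),
    tfEnergy z R ρ

end H749Z.TF
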