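import Pool.Agent.H749Z.TF.Defs

set_option autoImplicit false

namespace H749Z.TF
open MeasureTheory Metric Set

theorem one_le_gam : 1 ≤ gam := by
  have h1 : (8 : ℝ) ≤ 3 * Real.pi ^ 2 := by nlinarith [Real.pi_gt_three]
  have h2 : (8 : ℝ) ^ (2 / 3 : ℝ) ≤ (3 * Real.pi ^ 2) ^ (2 / 3 : ℝ) :=
    Real.rpow_le_rpow (by norm_num) h1 (by norm_num)
  have h3 : (8 : ℝ) ^ (2 / 3 : ℝ) = 4 := by
    rw [show (8 : ℝ) = 2 ^ (3 : ℝ) by norm_num, ← Real.rpow_mul (by norm_num)]; norm_num
  unfold gam; linarith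

theorem young {a b : ℝ} (ha : 0 ≤ a) (hb : 0 ≤ b) :
    a * b ≤ b ^ (5 / 3 : ℝ) + a ^ (5 / 2 : ℝ) := by
  have h1 : 0 ≤ b ^ (5 / 3 : ℝ) := by positivity
  have h2 : 0 ≤ a ^ (5 / 2 : ℝ) := by positivity
  rcases le_total a (b ^ (2 / 3 : ℝ)) with h | h
  · have : b ^ (5 / 3 : ℝ) = b ^ (2 / 3 : ℝ) * b := by
      rw [← Real.rpow_add_one' hb (by norm_num)]; norm_num
    nlinarith [mul_le_mul_of_nonneg_right h hb]
  · have h3 : b ≤ a ^ (3 / 2 : ℝ) := by
      have := Real.rpow_le_rpow (by positivity) h (show (0 : ℝ) ≤ 3 / 2 by norm_num)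
      rwa [← Real.rpow_mul hb, show (2 / 3 * (3 / 2) : ℝ) = 1 by norm_num, Real.rpow_one] at this
    have : a ^ (5 / 2 : ℝ) = a ^ (3 / 2 : ℝ) * a := by
      rw [← Real.rpow_add_one' ha (by norm_num)]; norm_num
    nlinarith [mul_le_mul_of_nonneg_left h3 ha]

/-- the singular weight on a ball -/
noncomputable def sing (r : ℝ) : E3 → ℝ := (ball 0 r).indicator fun x => ‖x‖ ^ (-(5 / 2) : ℝ)

theorem sing_int (r : ℝ) : Integrable (sing r) := by
  refine (integrable_indicator_iff measurableSet_ball).2 ?_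
  refine integrableOn_ball_of_norm_le_rpow (C := 1) (α := 5 / 2) (by simp) (by simp; norm_num)
    (Filter.Eventually.of_forall fun x => ?_) (measurable_norm.pow_const _).aestronglyMeasurable
  rw [one_mul, Real.norm_of_nonneg (by positivity)]

theorem sing_scale {u : ℝ} (hu : 0 < u) : ∫ x, sing (u ^ 2) x = u * ∫ x, sing 1 x := by
  have h1 := Measure.integral_comp_smul (volume : Measure E3) (sing (u ^ 2)) (u ^ 2)
  have h2 : ∀ x, sing (u ^ 2) (u ^ 2 • x) = (u ^ 5)⁻¹ * sing 1 x := by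
    intro x
    have e : (u ^ 2 • x ∈ ball (0 : E3) (u ^ 2)) ↔ x ∈ ball (0 : E3) 1 := by
      rw [mem_ball_zero_iff, mem_ball_zero_iff, norm_smul, Real.norm_of_nonneg (by positivity),
        mul_lt_iff_lt_one_right (by positivity)]
    unfold sing
    by_cases h : x ∈ ball (0 : E3) 1
    · rw [indicator_of_mem h, indicator_of_mem (e.2 h), norm_smul,
        Real.norm_of_nonneg (by positivity), Real.mul_rpow (by positivity) (norm_nonneg _)]
      congr 1
      rw [← Real.rpow_natCast, ← Real.rpow_mul hu.le, ← Real.rpow_natCast, ← Real.rpow_neg hu.le]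
      norm_num
    · rw [indicator_of_notMem h, indicator_of_notMem (mt e.1 h), mul_zero]
  simp only [h2, integral_const_mul, finrank_euclideanSpace, Fintype.card_fin, smul_eq_mul] at h1
  rw [abs_of_nonneg (by positivity)] at h1
  field_simp at h1
  linarith

theorem coul_ge {ρ : E3 → ℝ} (h0 : ∀ x, 0 ≤ ρ x) (hi : Integrable ρ) {R : ℝ} (hR : 0 < R) :
    ENNReal.ofReal ((∫ x, (ball 0 R).indicator ρ x) ^ 2 / (4 * R)) ≤ coul ρ := by
  set f := (ball (0 : E3) R).indicator ρ with hf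
  have hf0 : ∀ x, 0 ≤ f x := fun x => indicator_nonneg (fun y _ => h0 y) x
  have hfi : Integrable f := hi.indicator measurableSet_ball
  obtain ⟨Q, hQ⟩ : ∃ Q, Q = ∫ x, f x := ⟨_, rfl⟩
  rw [← hQ]
  have hQ0 : 0 ≤ Q := hQ ▸ integral_nonneg hf0
  have h1 : ∀ x, ENNReal.ofReal (Q / (2 * R) * f x) ≤
      ∫⁻ y, ENNReal.ofReal (ρ x * ρ y / ‖x - y‖) := by
    intro x
    have e : Q / (2 * R) * f x = ∫ y, f x / (2 * R) * f y := by
      rw [integral_const_mul, ← hQ]; ring
    rw [e, ofReal_integral_eq_lintegral_ofReal (hfi.const_mul _)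
      (Filter.Eventually.of_forall fun y => by have := hf0 x; have := hf0 y; positivity)]
    refine lintegral_mono_ae ?_
    filter_upwards [compl_mem_ae_iff.2 (measure_singleton x)] with y hy
    refine ENNReal.ofReal_le_ofReal ?_
    have hxy : 0 < ‖x - y‖ := norm_pos_iff.2 (sub_ne_zero.2 (Ne.symm hy))
    have hp : 0 ≤ ρ x * ρ y / ‖x - y‖ := by have := h0 x; have := h0 y; positivity
    by_cases hx : x ∈ ball (0 : E3) R
    · by_cases hy' : y ∈ ball (0 : E3) R
      · rw [hf, indicator_of_mem hx, indicator_of_mem hy', div_mul_eq_mul_div]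
        refine div_le_div_of_nonneg_left (mul_nonneg (h0 x) (h0 y)) hxy ?_
        have := norm_sub_le x y
        rw [mem_ball_zero_iff] at hx hy'
        linarith
      · rw [hf, indicator_of_notMem hy', mul_zero]; exact hp
    · rw [hf, indicator_of_notMem hx, zero_div, zero_mul]; exact hp
  have h2 : ENNReal.ofReal (Q / (2 * R) * Q) ≤
      ∫⁻ x, ∫⁻ y, ENNReal.ofReal (ρ x * ρ y / ‖x - y‖) := by
    have e : Q / (2 * R) * Q = ∫ y, Q / (2 * R) * f y := by rw [integral_const_mul, ← hQ]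
    rw [e, ofReal_integral_eq_lintegral_ofReal (hfi.const_mul _)
      (Filter.Eventually.of_forall fun y => mul_nonneg (by positivity) (hf0 y))]
    exact lintegral_mono h1
  rw [coul, ENNReal.le_div_iff_mul_le (Or.inl (by norm_num)) (Or.inl (by norm_num))]
  refine le_trans (le_of_eq ?_) h2
  rw [← ENNReal.ofReal_ofNat 2, ← ENNReal.ofReal_mul (by positivity)]
  congr 1; field_simp; ring

theorem tf_ge {t a : ℝ} (ht : 0 < t) (ha : 0 < a) {ρ : E3 → ℝ} (h0 : ∀ x, 0 ≤ ρ x)
    (hp : MemLp ρ (5 / 3)) (hi : Integrable ρ) (h1 : ∫ x, ρ x ≤ 1) :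
    ((-(t ^ 8 * (a * (∫ x, sing 1 x) * t + 2 / a ^ 2)) : ℝ) : EReal) ≤
      tfEnergy (fun _ : Fin 1 => t ^ 4) (fun _ => 0) ρ := by
  set r := (a / t) ^ 2 with hr
  set R := a ^ 2 / t ^ 4 with hR
  have hr0 : 0 < r := by positivity
  have hR0 : 0 < R := by positivity
  have hK : Integrable fun x => ρ x ^ (5 / 3 : ℝ) := by
    have := hp.integrable_norm_rpow (by norm_num) (by finiteness)
    refine this.congr (Filter.Eventually.of_forall fun x => ?_)
    simp only
    rw [Real.norm_of_nonneg (h0 x)]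
    norm_num
  set f := (ball (0 : E3) R).indicator ρ with hf
  have hf0 : ∀ x, 0 ≤ f x := fun x => indicator_nonneg (fun y _ => h0 y) x
  have hfi : Integrable f := hi.indicator measurableSet_ball
  have h2 : ∫ x, pot (fun _ : Fin 1 => t ^ 4) (fun _ => 0) x * ρ x ≤
      ∫ x, (ρ x ^ (5 / 3 : ℝ) + t ^ 10 * sing r x + t ^ 4 / r * f x + t ^ 4 / R * ρ x) := by
    refine integral_mono_of_nonneg (Filter.Eventually.of_forall fun x => ?_)
      (((hK.add ((sing_int r).const_mul _)).add (hfi.const_mul _)).add (hi.const_mul _))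
      (Filter.Eventually.of_forall fun x => ?_)
    · have := h0 x
      simp only [pot, Finset.univ_unique, Finset.sum_singleton, sub_zero, Pi.zero_apply]
      positivity
    · simp only [pot, Finset.univ_unique, Finset.sum_singleton, sub_zero]
      have a0 := h0 x
      have a1 : 0 ≤ ρ x ^ (5 / 3 : ℝ) := by positivity
      have a2 : 0 ≤ t ^ 10 * sing r x :=
        mul_nonneg (by positivity) (indicator_nonneg (fun y _ => by positivity) x)
      have a3 : 0 ≤ t ^ 4 / r * f x := mul_nonneg (by positivity) (hf0 x)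
      have a4 : 0 ≤ t ^ 4 / R * ρ x := by positivity
      by_cases hx : ‖x‖ < r
      · have a5 := young (a := t ^ 4 / ‖x‖) (by positivity) a0
        have a6 : (t ^ 4 / ‖x‖) ^ (5 / 2 : ℝ) = t ^ 10 * sing r x := by
          rw [sing, indicator_of_mem (mem_ball_zero_iff.2 hx), Real.div_rpow (by positivity)
            (norm_nonneg _), Real.rpow_neg (norm_nonneg _), div_eq_mul_inv]
          congr 1
          rw [← Real.rpow_natCast, ← Real.rpow_mul ht.le, ← Real.rpow_natCast]
          norm_num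
        linarith
      · by_cases hx' : ‖x‖ < R
        · have a5 : t ^ 4 / ‖x‖ * ρ x ≤ t ^ 4 / r * f x := by
            rw [hf, indicator_of_mem (mem_ball_zero_iff.2 hx')]
            exact mul_le_mul_of_nonneg_right
              (div_le_div_of_nonneg_left (by positivity) hr0 (not_lt.1 hx)) a0
          linarith
        · have a5 : t ^ 4 / ‖x‖ * ρ x ≤ t ^ 4 / R * ρ x := mul_le_mul_of_nonneg_right
              (div_le_div_of_nonneg_left (by positivity) hR0 (not_lt.1 hx')) a0
          linarith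
  have i1 : Integrable fun x => ρ x ^ (5 / 3 : ℝ) + t ^ 10 * sing r x :=
    hK.add ((sing_int r).const_mul _)
  have i2 : Integrable fun x => ρ x ^ (5 / 3 : ℝ) + t ^ 10 * sing r x + t ^ 4 / r * f x :=
    i1.add (hfi.const_mul _)
  rw [integral_add i2 (hi.const_mul _), integral_add i1 (hfi.const_mul _),
    integral_add hK ((sing_int r).const_mul _), integral_const_mul, integral_const_mul,
    integral_const_mul, hr, sing_scale (by positivity), ← hr] at h2
  have h3 := coul_ge h0 hi hR0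
  rw [← hf] at h3
  set Q := ∫ x, f x
  set K := ∫ x, ρ x ^ (5 / 3 : ℝ) with hKdef
  set I := ∫ x, sing 1 x
  have hK0 : 0 ≤ K := integral_nonneg fun x => by have := h0 x; positivity
  have h4 : ((Q ^ 2 / (4 * R) : ℝ) : EReal) ≤ (coul ρ : EReal) := by
    have := EReal.coe_ennreal_le_coe_ennreal_iff.2 h3
    rwa [EReal.coe_ennreal_ofReal, max_eq_left (by positivity)] at this
  rw [tfEnergy, ← hKdef]
  refine le_trans ?_ (add_le_add_right h4 _)
  rw [← EReal.coe_add, EReal.coe_le_coe_iff]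
  have h5 : nuc (fun _ : Fin 1 => t ^ 4) (fun _ => (0 : E3)) = 0 := by simp [nuc]
  have h6 : K ≤ gam * K := le_mul_of_one_le_left hK0 one_le_gam
  have h7 : t ^ 4 / R * ∫ x, ρ x ≤ t ^ 8 / a ^ 2 := by
    refine (mul_le_of_le_one_right (by positivity) h1).trans (le_of_eq ?_)
    rw [hR]; field_simp
  have h8 : t ^ 4 / r * Q ≤ Q ^ 2 / (4 * R) + t ^ 8 / a ^ 2 := by
    have : Q ^ 2 / (4 * R) + t ^ 8 / a ^ 2 - t ^ 4 / r * Q = (t ^ 2 * Q / (2 * a) - t ^ 4 / a) ^ 2 := by
      rw [hr, hR]; field_simp; ring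
    nlinarith [sq_nonneg (t ^ 2 * Q / (2 * a) - t ^ 4 / a)]
  have h9 : t ^ 8 * (a * I * t + 2 / a ^ 2) =
      t ^ 10 * (a / t * I) + t ^ 8 / a ^ 2 + t ^ 8 / a ^ 2 := by
    field_simp; ring
  rw [h5, h9]
  linarith

end H749Z.TF
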