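import Pool.Agent.H749Z.TF.Lower

set_option autoImplicit false

namespace H749Z.TF
open MeasureTheory Metric Set
open scoped ContDiff

/-- one-electron configurations -/
abbrev X1 := Fin 1 → E3

theorem norm_x1 (x : X1) : ‖x 0‖ = ‖x‖ := by
  have : x = fun _ => x 0 := funext fun i => by rw [Subsingleton.elim i 0]
  conv_rhs => rw [this, pi_norm_const]

theorem finrank_x1 : Module.finrank ℝ X1 = 3 := by
  simp [Module.finrank_pi_fintype]

theorem scale_int (F : X1 → ℝ) {l : ℝ} (hl : 0 < l) : ∫ x, F (l • x) = (l ^ 3)⁻¹ * ∫ x, F x := by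
  rw [Measure.integral_comp_smul, finrank_x1, abs_of_nonneg (by positivity), smul_eq_mul]

theorem q_le : ∃ c : ℝ, 0 < c ∧ ∀ z : ℝ, 0 < z →
    EQ 1 (fun _ : Fin 1 => z) (fun _ => 0) ≤ ((-(c * z ^ 2) : ℝ) : EReal) := by
  classical
  let p : X1 := fun _ => EuclideanSpace.single 0 2
  have hp : ‖p‖ = 2 := by rw [← norm_x1]; simp [p]
  let b : ContDiffBump p := ⟨1 / 2, 1, by norm_num, by norm_num⟩
  let Φ : X1 → ℂ := fun x => (b x : ℂ)
  have hΦ : ContDiff ℝ ∞ Φ := Complex.ofRealCLM.contDiff.comp b.contDiff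
  have hΦc : HasCompactSupport Φ := b.hasCompactSupport.comp_left (g := fun r : ℝ => (r : ℂ)) (by simp)
  have hsupp : ∀ x, Φ x ≠ 0 → 1 < ‖x‖ ∧ ‖x‖ < 3 := by
    intro x hx
    have h1 : x ∈ Function.support b := fun h => hx (by simp [Φ, h])
    rw [b.support_eq, mem_ball, dist_eq_norm] at h1
    have h2 : ‖x - p‖ < 1 := h1
    have h3 := abs_norm_sub_norm_le x p
    rw [hp, abs_le] at h3
    constructor <;> linarith [h3.1, h3.2]
  let F0 : X1 → ℝ := fun x => ‖Φ x‖ ^ 2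
  let F1 : X1 → ℝ := fun x => ∑ i : Fin 1, ∑ a : Fin 3,
    ‖fderiv ℝ Φ x (Pi.single i (EuclideanSpace.single a 1))‖ ^ 2
  let F2 : X1 → ℝ := fun x => 1 / ‖x‖ * ‖Φ x‖ ^ 2
  have hF0c : Continuous F0 := hΦ.continuous.norm.pow 2
  have hF0s : HasCompactSupport F0 := hΦc.comp_left (g := fun w : ℂ => ‖w‖ ^ 2) (by simp)
  have hF0i : Integrable F0 := hF0c.integrable_of_hasCompactSupport hF0s
  have hM : 0 < ∫ x, F0 x := by
    refine hF0c.integral_pos_of_hasCompactSupport_nonneg_nonzero hF0s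
      (fun x => by simp only [F0, Pi.zero_apply]; positivity) (x := p) ?_
    simp [F0, Φ, b.one_of_mem_closedBall (mem_closedBall_self b.rIn_pos.le)]
  have hF2i : Integrable F2 := by
    have e : F2 = fun x => 1 / max ‖x‖ 1 * F0 x := by
      funext x
      by_cases h : Φ x = 0
      · simp [F2, F0, h]
      · simp only [F2, F0]; rw [max_eq_left (hsupp x h).1.le]
    rw [e]
    refine Continuous.integrable_of_hasCompactSupport (Continuous.mul ?_ hF0c) hF0s.mul_left
    exact continuous_const.div (continuous_norm.max continuous_const)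
      fun x => (lt_max_of_lt_right one_pos).ne'
  have hP : 1 / 3 * ∫ x, F0 x ≤ ∫ x, F2 x := by
    rw [← integral_const_mul]
    refine integral_mono (hF0i.const_mul _) hF2i fun x => ?_
    by_cases h : Φ x = 0
    · simp [F2, F0, h]
    · have := hsupp x h
      exact mul_le_mul_of_nonneg_right
        (one_div_le_one_div_of_le (by linarith) this.2.le) (by positivity)
  have hT : 0 ≤ ∫ x, F1 x := integral_nonneg fun x => by
    simp only [F1, Pi.zero_apply]; positivity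
  obtain ⟨M, hM'⟩ : ∃ M, M = ∫ x, F0 x := ⟨_, rfl⟩
  obtain ⟨T, hT'⟩ : ∃ T, T = ∫ x, F1 x := ⟨_, rfl⟩
  obtain ⟨P, hP'⟩ : ∃ P, P = ∫ x, F2 x := ⟨_, rfl⟩
  rw [← hM'] at hM hP
  rw [← hT'] at hT
  rw [← hP'] at hP
  have hP0 : 0 < P := by linarith
  refine ⟨P ^ 2 / (4 * (T + 1) * M), by positivity, fun z hz => ?_⟩
  obtain ⟨l, hl'⟩ : ∃ l, l = z * P / (2 * (T + 1)) := ⟨_, rfl⟩
  have hl : 0 < l := by rw [hl']; positivity
  obtain ⟨κ, hκ0, hκ⟩ : ∃ κ : ℝ, 0 ≤ κ ∧ κ ^ 2 = l ^ 3 / M :=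
    ⟨√(l ^ 3 / M), Real.sqrt_nonneg _, Real.sq_sqrt (by positivity)⟩
  let G : X1 → ℂ := fun x => (κ : ℂ) * Φ (l • x)
  let s0 : Fin 1 → Fin 2 := fun _ => 0
  let ψ : Wave 1 := fun x s => if s = s0 then G x else 0
  have hG : ContDiff ℝ ∞ G := contDiff_const.mul (hΦ.comp (contDiff_const_smul l))
  have hGc : HasCompactSupport G :=
    HasCompactSupport.mul_left (hΦc.comp_homeomorph (Homeomorph.smulOfNeZero l hl.ne'))
  have hGn : ∀ x, ‖G x‖ ^ 2 = κ ^ 2 * F0 (l • x) := by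
    intro x; simp only [G, F0, norm_mul, mul_pow, Complex.norm_real, Real.norm_eq_abs, sq_abs]
  have hGd : ∀ x v, ‖fderiv ℝ G x v‖ ^ 2 = κ ^ 2 * l ^ 2 * ‖fderiv ℝ Φ (l • x) v‖ ^ 2 := by
    intro x v
    have h1 : HasFDerivAt Φ (fderiv ℝ Φ (l • x)) (l • x) :=
      (hΦ.differentiable (by simp) _).hasFDerivAt
    have h2 := ((h1.comp x ((hasFDerivAt_id x).const_smul l)).const_mul (κ : ℂ)).fderiv
    have h3 : fderiv ℝ G x v = (κ : ℂ) * (l • fderiv ℝ Φ (l • x) v) := by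
      have : fderiv ℝ G x = _ := h2
      rw [this]; simp
    rw [h3, norm_mul, norm_smul, mul_pow, mul_pow, Complex.norm_real, Real.norm_eq_abs,
      Real.norm_eq_abs, sq_abs, sq_abs, mul_assoc]
  have htr : IsTrial ψ := by
    constructor
    · intro s
      simp only [ψ]
      split_ifs
      · exact hG
      · exact contDiff_const
    · intro s
      simp only [ψ]
      split_ifs
      · exact hGc
      · exact HasCompactSupport.zero
    · intro π x s
      rw [Subsingleton.elim π 1]; simp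
    · rw [Finset.sum_eq_single s0]
      · simp only [ψ, if_true, hGn]
        rw [integral_const_mul, scale_int F0 hl, ← hM', hκ]; field_simp
      · intro s _ hs; simp [ψ, hs]
      · simp
  refine (iInf₂_le ψ htr).trans (EReal.coe_le_coe_iff.2 ?_)
  have h5 : nuc (fun _ : Fin 1 => z) (fun _ => (0 : E3)) = 0 := by simp [nuc]
  rw [qEnergy, h5, add_zero, Finset.sum_eq_single s0]
  · simp only [ψ, if_true]
    have e1 : ∫ x, ∑ i : Fin 1, ∑ a : Fin 3,
        ‖fderiv ℝ (fun y => G y) x (Pi.single i (EuclideanSpace.single a 1))‖ ^ 2 =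
          l ^ 2 * T / M := by
      have : ∀ x, ∑ i : Fin 1, ∑ a : Fin 3,
          ‖fderiv ℝ (fun y => G y) x (Pi.single i (EuclideanSpace.single a 1))‖ ^ 2 =
            κ ^ 2 * l ^ 2 * F1 (l • x) := by
        intro x
        simp only [F1, Finset.mul_sum]
        exact Finset.sum_congr rfl fun i _ => Finset.sum_congr rfl fun a _ => hGd x _
      simp only [this]
      rw [integral_const_mul, scale_int F1 hl, ← hT', hκ]; field_simp
    have e2 : ∫ x : X1, (∑ i, pot (fun _ : Fin 1 => z) (fun _ => 0) (x i)) * ‖G x‖ ^ 2 =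
        z * l * P / M := by
      have : ∀ x : X1, (∑ i, pot (fun _ : Fin 1 => z) (fun _ => 0) (x i)) * ‖G x‖ ^ 2 =
          κ ^ 2 * z * l * F2 (l • x) := by
        intro x
        rw [hGn]
        simp only [pot, Finset.univ_unique, Finset.sum_singleton, sub_zero, F2, F0,
          Fin.default_eq_zero, norm_x1, norm_smul, Real.norm_of_nonneg hl.le]
        by_cases hx : ‖x‖ = 0
        · simp [hx]
        · field_simp
      simp only [this]
      rw [integral_const_mul, scale_int F2 hl, ← hP', hκ]; field_simp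
    rw [e1, e2]
    simp only [Finset.univ_unique, Finset.sum_singleton, lt_irrefl, if_false, zero_mul,
      integral_zero, add_zero]
    have e3 : -(P ^ 2 / (4 * (T + 1) * M) * z ^ 2) = l ^ 2 * (T + 1) / M - z * l * P / M := by
      rw [hl']; field_simp; ring
    rw [e3]
    gcongr
    linarith
  · intro s _ hs; simp [ψ, hs]
  · simp

theorem main : ∃ z0 : ℝ, 0 < z0 ∧ ∀ z : ℝ, 0 < z → z ≤ z0 →
    EQ 1 (fun _ : Fin 1 => z) (fun _ => 0) < ETF 1 (fun _ : Fin 1 => z) (fun _ => 0) := by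
  obtain ⟨c, hc, h⟩ := q_le
  obtain ⟨I, hI⟩ : ∃ I, I = ∫ x, sing 1 x := ⟨_, rfl⟩
  have hI0 : 0 ≤ I := hI ▸ integral_nonneg fun x => indicator_nonneg (fun y _ => by positivity) x
  obtain ⟨a, ha, ha'⟩ : ∃ a : ℝ, 0 < a ∧ a ^ 2 = 6 / c :=
    ⟨√(6 / c), Real.sqrt_pos.2 (by positivity), Real.sq_sqrt (by positivity)⟩
  refine ⟨(c / (3 * (a * I + 1))) ^ 4, by positivity, fun z hz hz' => ?_⟩
  obtain ⟨t, ht, rfl⟩ : ∃ t : ℝ, 0 < t ∧ t ^ 4 = z :=
    ⟨z ^ ((4 : ℕ) : ℝ)⁻¹, by positivity, Real.rpow_inv_natCast_pow hz.le (by norm_num)⟩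
  have ht' : t ≤ c / (3 * (a * I + 1)) :=
    le_of_pow_le_pow_left₀ (by norm_num) (by positivity) hz'
  refine (h _ hz).trans_lt (lt_of_lt_of_le (b := ((-(t ^ 8 * (a * I * t + 2 / a ^ 2)) : ℝ) : EReal))
    (EReal.coe_lt_coe_iff.2 ?_) ?_)
  · have h1 : a * I * t ≤ c / 3 := by
      rw [le_div_iff₀ (by positivity)] at ht'
      nlinarith [mul_nonneg ha.le hI0]
    have h2 : 2 / a ^ 2 = c / 3 := by rw [ha']; field_simp; norm_num
    have h3 : (0 : ℝ) < t ^ 8 := by positivity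
    rw [h2, ← pow_mul]
    nlinarith
  · refine le_iInf₂ fun ρ hρ => ?_
    rw [hI]
    exact tf_ge ht ha hρ.1 hρ.2.1 hρ.2.2.1 (by simpa using hρ.2.2.2)

end H749Z.TF
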